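import Pool.Agent.Helper72.LSr.N1

/-!
# LR-I2: change of line
-/

namespace Pool.Agent.Helper93.LSr

open Finset
open scoped Classical
open Pool.Agent.Helper72.LSr

variable {V : Type} (G : SimpleGraph V) (S : Finset V)

theorem Dv_low (k A B : ℕ) (v : V) : Dv k A (B + 1) G S v = Dv k (A + 1) B G S v + 1 := by
  unfold Dv
  rw [EE_sA, EE_sB]
  ring

theorem Yv_low (k A B : ℕ) (v : V) :
    Yv k A (B + 1) G S v = Yv k (A + 1) B G S v - Dv k (A + 1) B G S v := by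
  unfold Yv Dv
  rw [es3_sA, es3_sB, EE_sA, EE_sB]
  ring

theorem cv_low (k A B : ℕ) (u v : V) :
    cv k A (B + 1) G S u v = cv k (A + 1) B G S u v + 1 := by
  unfold cv
  rw [EE_sA, EE_sB]
  ring

theorem MS_low (k A B : ℕ) : MS k A (B + 1) S = MS k (A + 1) B S + 1 := by
  unfold MS
  rw [Mm_low]

theorem rS_low (k A B : ℕ) :
    rS k A (B + 1) G S = rS k (A + 1) B G S + MS k (A + 1) B S + 1 := by
  unfold rS MS
  rw [rho_low]

theorem gS_low (k A B : ℕ) : gS k A (B + 1) G S = - rS k (A + 1) B G S := by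
  unfold gS rS
  rw [gg_low]

theorem Phi_low (k A B j : ℕ) :
    Phi k A (B + 1) (j + 1) G S = Phi k (A + 1) B (j + 1) G S - es k A B j * rS k (A + 1) B G S := by
  unfold Phi rS
  rw [Vl_low]
  ring

theorem Dv_sw (k B : ℕ) (v : V) : Dv (k + 1) B 0 G S v = Dv k 0 B G S v + 1 := by
  unfold Dv
  rw [EE_sw]
  push_cast
  ring

theorem Yv_sw (k B : ℕ) (v : V) : Yv (k + 1) B 0 G S v = Yv k 0 B G S v := by
  unfold Yv
  rw [EE_sw, es_sw]

theorem cv_sw (k B : ℕ) (u v : V) : cv (k + 1) B 0 G S u v = cv k 0 B G S u v := by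
  unfold cv
  rw [EE_sw]

theorem MS_sw (k B : ℕ) : MS (k + 1) B 0 S = MS k 0 B S + 2 := by
  unfold MS
  rw [Mm_sw]

theorem rS_sw (k B : ℕ) : rS (k + 1) B 0 G S = rS k 0 B G S + MS k 0 B S + 2 := by
  unfold rS MS
  rw [rho_sw]

theorem gS_sw (k B : ℕ) : gS (k + 1) B 0 G S = - rS k 0 B G S := by
  unfold gS rS
  rw [gg_sw]

theorem Phi_sw (k B i : ℕ) : Phi (k + 1) B 0 i G S = Phi k 0 B i G S := by
  unfold Phi
  rw [Vl_sw]

theorem Yr_sw (k B i : ℕ) (v : V) : Yr (k + 1) B 0 i G S v = Yr k 0 B i G S v := by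
  unfold Yr
  rw [EE_sw, es_sw, es_sw]

theorem rS_add_gS (k A B : ℕ) : rS k A B G S + gS k A B G S = MS k A B S := by
  unfold rS gS MS
  rw [rho_add_gg]

end Pool.Agent.Helper93.LSr
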